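import Mathlib
import Pool.Agent.Y839.OD.Loc

/-!
# Ordered groups whose convex jumps are locally abelian-by-nilpotent

An ordered group `G` order-embeds in a divisible ordered group as soon as, for every finitely
generated subgroup `K` of `G` and every jump `N < W` of convex normal subgroups of `K`, the
quotient `K ⧸ N` is abelian-by-nilpotent. This holds for all abelian-by-nilpotent ordered groups
(the question), for the ordered groups which are locally so, and more generally if the convex
normal subgroups `N` of `G` with `G ⧸ N` locally abelian-by-nilpotent have trivial intersection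
(for instance for free groups with the orders that come from the lower central series).
-/

set_option autoImplicit false
set_option linter.all false

universe u

namespace Pool.Agent.Results.MP_fa2194_al.ConvexJumps

/-- `G` is abelian-by-nilpotent: it has an abelian normal subgroup with nilpotent quotient. -/
def AbelianByNilpotent (G : Type u) [Group G] : Prop :=
  ∃ (A : Subgroup G) (_ : A.Normal), (∀ a ∈ A, ∀ b ∈ A, a * b = b * a) ∧
    Group.IsNilpotent (G ⧸ A)

/-- `N` is a convex normal subgroup of the ordered group `G`. -/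
def ConvexNormal {G : Type u} [Group G] [LinearOrder G] (N : Subgroup G) : Prop :=
  N.Normal ∧ ∀ a b c : G, a ∈ N → c ∈ N → a ≤ b → b ≤ c → b ∈ N

/-- `N < W` is a jump of convex normal subgroups: there is no convex normal subgroup strictly
between them. -/
def IsJump {G : Type u} [Group G] [LinearOrder G] (N W : Subgroup G) : Prop :=
  ConvexNormal N ∧ ConvexNormal W ∧ N < W ∧
    ∀ M : Subgroup G, ConvexNormal M → N ≤ M → M ≤ W → M = N ∨ M = W

/-- For every finitely generated subgroup `K` of `G` (with the induced order) and every jump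
`N < W` of convex normal subgroups of `K`, the group `K ⧸ N` is abelian-by-nilpotent. -/
def JumpCondition (G : Type u) [Group G] [LinearOrder G] : Prop :=
  ∀ K : Subgroup G, K.FG → ∀ (N W : Subgroup K) [N.Normal], IsJump N W →
    AbelianByNilpotent (K ⧸ N)

/-- The ordered group `G` has an order-embedding in a divisible ordered group. -/
def DivisiblyEmbeddable (G : Type u) [Group G] [LinearOrder G] : Prop :=
  ∃ (H : Type u) (_ : Group H) (_ : LinearOrder H) (_ : MulLeftMono H) (_ : MulRightMono H)
    (φ : G →* H), Function.Injective φ ∧ (∀ a b : G, a ≤ b ↔ φ a ≤ φ b) ∧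
    ∀ (h : H) (n : ℕ), 1 ≤ n → ∃ x : H, x ^ n = h

section

open OD Y839.OD

variable {G : Type u} [Group G] [LinearOrder G] [MulLeftMono G] [MulRightMono G]

instance subL (K : Subgroup G) : MulLeftMono K :=
  ⟨fun c a b h => by
    show ((c * a : K) : G) ≤ ((c * b : K) : G)
    have h' : (a : G) ≤ (b : G) := h
    rw [Subgroup.coe_mul, Subgroup.coe_mul]
    exact mul_le_mul_right h' _⟩

instance subR (K : Subgroup G) : MulRightMono K :=
  ⟨fun c a b h => by
    show ((a * c : K) : G) ≤ ((b * c : K) : G)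
    have h' : (a : G) ≤ (b : G) := h
    rw [Subgroup.coe_mul, Subgroup.coe_mul]
    exact mul_le_mul_left h' _⟩

lemma nc_iff (N : Subgroup G) : NC {g : G | 1 < g} N ↔ ConvexNormal N := by
  constructor
  · rintro ⟨h1, h2⟩
    refine ⟨h1, fun a b c ha hc hab hbc => ?_⟩
    have hb : a⁻¹ * b ∈ N := by
      rcases eq_or_lt_of_le hab with h | h
      · rw [← h, inv_mul_cancel]; exact N.one_mem
      rcases eq_or_lt_of_le hbc with h' | h'
      · rw [h']; exact N.mul_mem (N.inv_mem ha) hc
      refine h2 (a⁻¹ * c) (N.mul_mem (N.inv_mem ha) hc) (a⁻¹ * b) ?_ ?_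
      · show 1 < a⁻¹ * b
        have := mul_lt_mul_right h a⁻¹
        rwa [inv_mul_cancel] at this
      · show 1 < (a⁻¹ * b)⁻¹ * (a⁻¹ * c)
        have := mul_lt_mul_right h' b⁻¹
        rw [inv_mul_cancel] at this
        have e : (a⁻¹ * b)⁻¹ * (a⁻¹ * c) = b⁻¹ * c := by group
        rwa [e]
    have := N.mul_mem ha hb
    rwa [mul_inv_cancel_left] at this
  · rintro ⟨h1, h2⟩
    refine ⟨h1, fun v hv g hg hgv => ?_⟩
    have hg' : (1 : G) < g := hg
    have hgv' : (1 : G) < g⁻¹ * v := hgv
    refine h2 1 g v N.one_mem hv hg'.le ?_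
    have := mul_lt_mul_right hgv' g
    rw [mul_one, mul_inv_cancel_left] at this
    exact this.le

lemma embC_of_jumps (h : ∀ (N W : Subgroup G) [N.Normal], IsJump N W →
    AbelianByNilpotent (G ⧸ N)) : EmbC {g : G | 1 < g} := by
  refine of_jumps _ (cone_of_order G) fun N W hJ => ?_
  have := hJ.1.nor
  refine jump_hom _ (cone_of_order G) N W hJ (h N W ⟨(nc_iff N).1 hJ.1, (nc_iff W).1 hJ.2.1,
    hJ.2.2.1, fun M hM hNM hMW => ?_⟩)
  rcases eq_or_lt_of_le hNM with h1 | h1
  · exact Or.inl h1.symm
  · exact Or.inr (le_antisymm hMW (hJ.2.2.2 M ((nc_iff M).2 hM) h1))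

lemma embeddable_of_embC (h : EmbC {g : G | 1 < g}) : DivisiblyEmbeddable G := by
  obtain ⟨H, _, PH, φ, hPH, hHd, hφ⟩ := h
  obtain ⟨lo, hl, hr, hlt⟩ := hPH.exists_order
  have hmono : StrictMono φ := by
    intro a b hab
    rw [hlt, ← map_inv, ← map_mul]
    apply hφ
    show 1 < a⁻¹ * b
    have h1 : a⁻¹ * a < a⁻¹ * b := mul_lt_mul_right hab a⁻¹
    rwa [inv_mul_cancel] at h1
  exact ⟨H, inferInstance, lo, hl, hr, φ, hmono.injective, fun a b => (hmono.le_iff_le).symm,
    fun x n hn => hHd x n hn⟩

lemma main (h : JumpCondition G) : DivisiblyEmbeddable G := by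
  refine embeddable_of_embC (of_local _ (cone_of_order G) fun S => ?_)
  exact embC_of_jumps (G := Subgroup.closure (S : Set G)) fun N W _ hJ =>
    h (Subgroup.closure (S : Set G)) ⟨S, rfl⟩ N W hJ

lemma jump_of_family {ι : Type*} (F : ι → Subgroup G) [∀ i, (F i).Normal]
    (hF : ∀ i, ConvexNormal (F i)) (htriv : ∀ g : G, g ≠ 1 → ∃ i, g ∉ F i)
    (hab : ∀ i, ∀ L : Subgroup (G ⧸ F i), L.FG → AbelianByNilpotent L) : JumpCondition G := by
  intro K hK N W hN hJ
  obtain ⟨hNc, hWc, hlt, hmax⟩ := hJ
  obtain ⟨w, hwW, hwN⟩ := SetLike.exists_of_lt hlt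
  have hw1 : (w : G) ≠ 1 := fun h => hwN (by
    have : w = 1 := Subtype.ext h
    rw [this]; exact N.one_mem)
  obtain ⟨i, hi⟩ := htriv w hw1
  let M : Subgroup K := (F i).comap K.subtype
  have hM : ConvexNormal M := by
    refine ⟨(hF i).1.comap _, fun a b c ha hc hab' hbc => ?_⟩
    exact (hF i).2 a b c ha hc hab' hbc
  have hwM : w ∉ M := hi
  have hMN : M ≤ N := by
    rcases NC.total (cone_of_order K) ((nc_iff M).2 hM) ((nc_iff N).2 hNc) with h | h
    · exact h
    rcases NC.total (cone_of_order K) ((nc_iff M).2 hM) ((nc_iff W).2 hWc) with h' | h'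
    · rcases hmax M hM h h' with h1 | h1
      · exact h1.le
      · exact absurd (h1 ▸ hwW) hwM
    · exact absurd (h' hwW) hwM
  have hL : (K.map (QuotientGroup.mk' (F i))).FG := by
    classical
    obtain ⟨S, hS⟩ := hK
    refine ⟨S.image (QuotientGroup.mk' (F i)), ?_⟩
    rw [← hS, MonoidHom.map_closure, Finset.coe_image]
  refine AbByNil.quot_of_hom ((QuotientGroup.mk' (F i)).subgroupMap K) N ?_ (hab i _ hL)
  intro x hx
  refine hMN ?_
  have h1 : (QuotientGroup.mk' (F i)) (x : G) = 1 := by
    have h2 := congrArg Subtype.val (MonoidHom.mem_ker.1 hx)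
    exact h2
  exact (QuotientGroup.eq_one_iff (x : G)).1 h1

lemma embC_of_embeddable (h : DivisiblyEmbeddable G) : EmbC {g : G | 1 < g} := by
  obtain ⟨H, _, _, _, _, φ, hinj, hle, hdiv⟩ := h
  refine ⟨H, inferInstance, {x : H | 1 < x}, φ, cone_of_order H, fun x n hn => hdiv x n hn, ?_⟩
  intro g hg
  have hg' : (1 : G) < g := hg
  show 1 < φ g
  rw [← map_one φ]
  exact lt_of_le_of_ne ((hle _ _).1 hg'.le) fun h => hg'.ne (hinj h)

lemma locality (h : ∀ K : Subgroup G, K.FG → DivisiblyEmbeddable K) : DivisiblyEmbeddable G := by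
  refine embeddable_of_embC (of_local _ (cone_of_order G) fun S => ?_)
  exact embC_of_embeddable (G := Subgroup.closure (S : Set G)) (h _ ⟨S, rfl⟩)

lemma jumps (h : ∀ N W : Subgroup G, IsJump N W →
    ∃ (H : Type u) (_ : Group H) (_ : LinearOrder H) (_ : MulLeftMono H) (_ : MulRightMono H)
      (φ : G →* H), (∀ g ∈ N, φ g = 1) ∧ (∀ g ∈ W, g ∉ N → 1 < g → 1 < φ g) ∧
      ∀ (x : H) (n : ℕ), 1 ≤ n → ∃ y : H, y ^ n = x) : DivisiblyEmbeddable G := by
  refine embeddable_of_embC (of_jumps _ (cone_of_order G) fun N W hJ => ?_)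
  obtain ⟨H, _, _, _, _, φ, h1, h2, h3⟩ := h N W ⟨(nc_iff N).1 hJ.1, (nc_iff W).1 hJ.2.1,
    hJ.2.2.1, fun M hM hNM hMW => by
      rcases eq_or_lt_of_le hNM with h1 | h1
      · exact Or.inl h1.symm
      · exact Or.inr (le_antisymm hMW (hJ.2.2.2 M ((nc_iff M).2 hM) h1))⟩
  exact ⟨H, inferInstance, {x : H | 1 < x}, φ, cone_of_order H, fun x n hn => h3 x n hn, h1,
    fun g hg hgW hgN => h2 g hgW hgN hg⟩

end

/-- **Theorem.** Let `G` be an ordered group such that, for every finitely generated subgroup `K` of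
`G` and every jump `N < W` of convex normal subgroups of `K`, the quotient `K ⧸ N` is
abelian-by-nilpotent. Then `G` has an order-embedding in a divisible ordered group.

The condition holds in particular if `G` is abelian-by-nilpotent (the question), and if `G` has
a family of convex normal subgroups `F i` with trivial intersection such that all finitely
generated subgroups of all quotients `G ⧸ F i` are abelian-by-nilpotent. -/
theorem result (G : Type u) [Group G] [LinearOrder G] [MulLeftMono G] [MulRightMono G] :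
    (JumpCondition G → DivisiblyEmbeddable G) ∧
    (AbelianByNilpotent G → JumpCondition G) ∧
    (∀ (ι : Type u) (F : ι → Subgroup G) [∀ i, (F i).Normal],
      (∀ i, ConvexNormal (F i)) → (∀ g : G, g ≠ 1 → ∃ i, g ∉ F i) →
      (∀ i, ∀ L : Subgroup (G ⧸ F i), L.FG → AbelianByNilpotent L) → JumpCondition G) := by
  refine ⟨fun h => main h, fun h => ?_, fun ι F _ h1 h2 h3 => jump_of_family F h1 h2 h3⟩
  intro K hK N W hN _
  refine Y839.OD.AbByNil.quot_of_hom K.subtype N ?_ h
  intro x hx
  have h1 : x = 1 := Subtype.ext (MonoidHom.mem_ker.1 hx)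
  rw [h1]
  exact N.one_mem

end Pool.Agent.Results.MP_fa2194_al.ConvexJumps
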